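import Mathlib
import Pool.Agent.H26.EQ.End2

/-!
# MP_cda23d_nt: nonsplit primes and the non-cube part of the numerator of `j`, every exponent
-/

set_option autoImplicit false

namespace Pool.Agent.Results.MP_cda23d_nt.EveryExponent

open Pool.Agent.H27.SU Pool.Agent.H26.EP

/-- **Theorem.** Let `E/ℚ` be an elliptic curve without complex multiplication, `j = a/b ≠ 0, 1728` in lowest terms and
`H = max(|a|, b)`.  A prime `p` is nonsplit for `E` if the image of `ρ_{E,p}` is contained in the normaliser of a nonsplit Cartan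
subgroup.
* (1) Let `0 < δ ≤ 1` and let `N` be the product of `ℓ^(v_ℓ(a))` over the primes `ℓ ≥ 5` dividing `a` with `3 ∤ v_ℓ(a)`, or with
  `ℓ = 1 mod 3` and `ℓ ≤ 10¹⁷⁹/δ⁴`.  If `N > 1` and `N ≥ H^δ`, then no prime `p ≥ 10⁹⁰/δ²` is nonsplit for `E`.
* (2) For every nonsplit prime `p ≥ 29` and the product `N_p` of `ℓ^(v_ℓ(a))` over the primes `ℓ ≥ 5`, `ℓ ≠ p`, dividing `a`, with
  `3 ∤ v_ℓ(a)`, or with `ℓ = 1 mod 3` and `4 ℓ < p²`: `p^(max(v_p(a) - 3, 0)) N_p ≤ e²⁰⁴ H^(3/(p-9))`.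
* (3) At `j = 1728`: if `p ≥ 29` is nonsplit with Cartan field `ℚ(√m)`, the product of `q^(v_q(a - 1728 b))` over the primes `q ≥ 5`,
  `q ≠ p`, with `v_q(a - 1728 b)` odd and `q ∤ m`, or with `q = 1 mod 4` and `4 q < p²`, is at most `e¹³⁶ H^(2/(p-9))`. -/
theorem result (E : WeierstrassCurve ℚ) [E.IsElliptic] (hE : NoComplexMult E) (h0 : E.j ≠ 0)
    (h1 : E.j ≠ 1728) :
    (∀ (δ N : ℝ), 0 < δ → δ ≤ 1 → N = partOver E.j.num (fun ℓ => 5 ≤ ℓ ∧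
        (¬ 3 ∣ padicValNat ℓ E.j.num.natAbs ∨ (ℓ % 3 = 1 ∧ (ℓ : ℝ) ≤ 10 ^ 179 / δ ^ 4))) →
      1 < N → height E.j ^ δ ≤ N →
      ∀ (p : ℕ) [Fact p.Prime], 10 ^ 90 / δ ^ 2 ≤ (p : ℝ) → ¬ InNonsplitNormaliser E p) ∧
    (∀ (p : ℕ) [Fact p.Prime], 29 ≤ p → InNonsplitNormaliser E p →
      (p : ℝ) ^ (padicValNat p E.j.num.natAbs - 3) *
        partOver E.j.num (fun ℓ => 5 ≤ ℓ ∧ ℓ ≠ p ∧
          (¬ 3 ∣ padicValNat ℓ E.j.num.natAbs ∨ (ℓ % 3 = 1 ∧ 4 * ℓ < p ^ 2))) ≤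
      Real.exp 204 * height E.j ^ (3 / ((p : ℝ) - 9))) ∧
    (∀ (p : ℕ) [Fact p.Prime] (m : ℤ), 29 ≤ p → CartanSqrt E p m →
      partOver (E.j - 1728).num (fun q => 5 ≤ q ∧ q ≠ p ∧
        ((padicValNat q (E.j - 1728).num.natAbs % 2 = 1 ∧ ¬ (q : ℤ) ∣ m) ∨
          (q % 4 = 1 ∧ 4 * q < p ^ 2))) ≤
      Real.exp 136 * height E.j ^ (2 / ((p : ℝ) - 9))) :=
  Pool.Agent.H26.EQ.e2_hand E hE h0 h1

end Pool.Agent.Results.MP_cda23d_nt.EveryExponent
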