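import Mathlib
import Pool.Agent.H90.IN.Uni

/-!
# MP_cda23d_nt: few `j`-invariants have a nonsplit prime `p ≥ P`, and very few nearly integral ones

The definitions of the statement are in `Pool/Agent/H90/IN/Stm.lean` (`Exceptions`, `AtMost`), `Pool/Agent/H26/EP/Stm.lean`
(`height`, `NoComplexMult`) and `Pool/Agent/H27/SU/GLdef.lean` (`InNonsplitNormaliser`).
-/

set_option autoImplicit false

namespace Pool.Agent.Results.MP_cda23d_nt.SparseExceptions

open Pool.Agent.H90.IN

/-- **Theorem.** For every `ε > 0` there is a constant `C` such that for all integers `7 ≤ P ≤ Q` and all real `0 ≤ κ ≤ 1`, `X ≥ 3` at most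
`C M^7 (log log X) X^e`, `M = min(Q, (log X)^(1+ε))`, `e = max(0, 4 + ε - (1-κ)(P-1))/(P(P-1))`, rational numbers `j = a/b` of height
`H = max(|a|, b) ≤ X` and denominator `b ≤ H^κ` are the `j`-invariant of an elliptic curve `E/ℚ` without complex multiplication which has
a nonsplit prime `P ≤ p ≤ Q`. -/
theorem result : ∀ ε : ℝ, 0 < ε → ∃ C : ℝ, 0 < C ∧ ∀ (P Q : ℕ) (κ X : ℝ), 7 ≤ P → P ≤ Q → 0 ≤ κ → κ ≤ 1 → 3 ≤ X →
    AtMost (Exceptions P Q κ X)
      (C * min (Q : ℝ) (Real.log X ^ (1 + ε)) ^ 7 * Real.log (Real.log X) *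
        X ^ (max 0 (4 + ε - (1 - κ) * (P - 1)) / (P * (P - 1)))) :=
  uni

end Pool.Agent.Results.MP_cda23d_nt.SparseExceptions
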